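import Pool.Agent.VTP.StmtsG
import Pool.Agent.Helper34_ZOL.ALG

/-!
# Squad VTP, row REL: commutation of the operators up to lower terms
-/

set_option autoImplicit false

namespace Pool.Agent.VTP.H70

open Finset Pool.Agent.ZOL Pool.Agent.VTP

section

variable {K : Type} {G : ℕ → AddSubgroup (K →₀ ℤ)} {μ : ℕ → K → K}

/-- the coefficients of `II` -/
def sc (m j : ℕ) : ℤ := (-1 : ℤ) ^ (m - 1 - j) * ((m - 1).choose j : ℤ)

theorem II_apply (m : ℕ) (x : K →₀ ℤ) :
    II μ m x = ∑ j ∈ range m, sc m j • lin (μ j) x := by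
  unfold II
  rw [AddMonoidHom.finsetSum_apply]
  rfl

theorem lin_mem (hanti : Antitone G) (hl : ∀ j d, ∀ x ∈ G d, lin (μ j) x - x ∈ G (d + 1))
    (j d : ℕ) (x : K →₀ ℤ) (hx : x ∈ G d) : lin (μ j) x ∈ G d := by
  have h := add_mem (hanti (Nat.le_succ d) (hl j d x hx)) hx
  rwa [sub_add_cancel] at h

/-- the sum with a binomial coefficient -/
theorem sum_choose (m r : ℕ) (hr : r < m) (y : K →₀ ℤ) :
    ∑ j ∈ range m, (sc m j * (j.choose r : ℤ)) • lin (μ j) y =
      ((m - 1).choose r : ℤ) • ∑ i ∈ range (m - r),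
        ((-1 : ℤ) ^ (m - 1 - r - i) * ((m - 1 - r).choose i : ℤ)) • lin (μ (i + r)) y := by
  have e : m = r + (m - r) := by omega
  have h1 : ∑ j ∈ range m, (sc m j * (j.choose r : ℤ)) • lin (μ j) y =
      ∑ j ∈ range (r + (m - r)), (sc m j * (j.choose r : ℤ)) • lin (μ j) y := by
    rw [← e]
  rw [h1, Finset.sum_range_add, Finset.sum_eq_zero, zero_add, Finset.smul_sum]
  · refine Finset.sum_congr rfl fun i hi => ?_
    have hi : i < m - r := by simpa using hi
    rw [smul_smul, add_comm r i]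
    have h2 : (m - 1).choose (i + r) * (i + r).choose r =
        (m - 1).choose r * (m - 1 - r).choose i := by
      have := Nat.choose_mul (n := m - 1) (k := i + r) (s := r) (by omega)
      simpa using this
    have h3 : ((m - 1).choose (i + r) : ℤ) * ((i + r).choose r : ℤ) =
        ((m - 1).choose r : ℤ) * ((m - 1 - r).choose i : ℤ) := by exact_mod_cast h2
    have h4 : m - 1 - (i + r) = m - 1 - r - i := by omega
    unfold sc
    rw [h4]
    have h5 : (-1 : ℤ) ^ (m - 1 - r - i) * ((m - 1).choose (i + r) : ℤ) * ((i + r).choose r : ℤ) =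
        ((m - 1).choose r : ℤ) * ((-1 : ℤ) ^ (m - 1 - r - i) * ((m - 1 - r).choose i : ℤ)) := by
      rw [mul_assoc, h3]
      ring
    rw [h5]
  · intro j hj
    have hj : j < r := by simpa using hj
    rw [Nat.choose_eq_zero_of_lt hj]
    simp

/-- the case `r ≥ m` -/
theorem sum_choose_zero (m r : ℕ) (hr : m ≤ r) (y : K →₀ ℤ) :
    ∑ j ∈ range m, (sc m j * (j.choose r : ℤ)) • lin (μ j) y = 0 := by
  refine Finset.sum_eq_zero fun j hj => ?_
  have hj : j < m := by simpa using hj
  rw [Nat.choose_eq_zero_of_lt (by omega)]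
  simp

/-- the case `r = m - 1` -/
theorem sum_choose_top (m : ℕ) (hm : 1 ≤ m) (y : K →₀ ℤ) :
    ∑ j ∈ range m, (sc m j * (j.choose (m - 1) : ℤ)) • lin (μ j) y = lin (μ (m - 1)) y := by
  rw [sum_choose m (m - 1) (by omega) y]
  have e : m - (m - 1) = 1 := by omega
  rw [e]
  simp

/-- the case `r ≤ m - 2` -/
theorem sum_choose_mem
    (hd : ∀ r j d, 1 ≤ r → ∀ x ∈ G d,
      (∑ i ∈ range (r + 1), ((-1 : ℤ) ^ (r - i) * (r.choose i : ℤ)) • lin (μ (i + j)) x) ∈
        G (d + r + 1))
    (m r : ℕ) (hr : r + 2 ≤ m) (d : ℕ) (y : K →₀ ℤ) (hy : y ∈ G d) :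
    ∑ j ∈ range m, (sc m j * (j.choose r : ℤ)) • lin (μ j) y ∈ G (d + (m - r)) := by
  rw [sum_choose m r (by omega) y]
  refine AddSubgroup.zsmul_mem _ ?_ _
  have h := hd (m - 1 - r) r d (by omega) y hy
  have e1 : m - 1 - r + 1 = m - r := by omega
  have e2 : d + (m - 1 - r) + 1 = d + (m - r) := by omega
  rwa [e1, e2] at h

/-- the sum with a polynomial -/
theorem sum_bp (m N : ℕ) (g : ℕ → ℤ) (a : ℕ → ℤ)
    (hg : ∀ j, g j = ∑ r ∈ Icc 1 N, a r * (j.choose r : ℤ)) (y : K →₀ ℤ) :
    ∑ j ∈ range m, (sc m j * g j) • lin (μ j) y =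
      ∑ r ∈ Icc 1 N, a r • ∑ j ∈ range m, (sc m j * (j.choose r : ℤ)) • lin (μ j) y := by
  have h1 : ∀ j, (sc m j * g j) • lin (μ j) y =
      ∑ r ∈ Icc 1 N, a r • ((sc m j * (j.choose r : ℤ)) • lin (μ j) y) := by
    intro j
    rw [hg, Finset.mul_sum, Finset.sum_smul]
    refine Finset.sum_congr rfl fun r _ => ?_
    rw [smul_smul]
    congr 1
    ring
  rw [Finset.sum_congr rfl fun j _ => h1 j, Finset.sum_comm]
  refine Finset.sum_congr rfl fun r _ => ?_
  rw [Finset.smul_sum]

end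

theorem rel (hb : BchStmt) : RelStmt := by
  intro K G μ v e m m' c hm hm' hanti hv he hth hd hl n d x hx
  obtain ⟨-, hb, -⟩ := hb
  -- the terms with `b ≥ 2`
  have hterm : ∀ b, 2 ≤ b → b ≤ n + 1 →
      ∑ j ∈ range m, (sc m j * Ring.choose (e j) b) • lin (μ j) (theta v (n + 1 - b) x) ∈
        G (d + m + 1 - m' * (n + 1)) := by
    intro b hb2 hbn
    obtain ⟨c', a, ha, -⟩ := hb (m' - 1) b e c (by omega) (by omega) he
    have hy : theta v (n + 1 - b) x ∈ G (d - m' * (n + 1 - b)) := hth _ _ x hx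
    rw [sum_bp m ((m' - 1) * b) (fun j => Ring.choose (e j) b) a ha]
    have e1 : m' * (n + 1 - b) + m' * b = m' * (n + 1) := by
      rw [← Nat.mul_add]
      congr 1
      omega
    have e2 : (m' - 1) * b + b = m' * b := by
      obtain ⟨k, rfl⟩ : ∃ k, m' = k + 1 := ⟨m' - 1, by omega⟩
      simp only [Nat.add_sub_cancel]
      ring
    refine AddSubgroup.sum_mem _ fun r hr => AddSubgroup.zsmul_mem _ ?_ _
    obtain ⟨hr1, hr2⟩ := Finset.mem_Icc.1 hr
    rcases Nat.lt_or_ge r m with h | h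
    · rcases Nat.lt_or_ge r (m - 1) with h' | h'
      · refine hanti ?_ (sum_choose_mem hd m r (by omega) _ _ hy)
        omega
      · have e3 : r = m - 1 := by omega
        rw [e3, sum_choose_top m (by omega)]
        refine hanti ?_ (lin_mem hanti hl _ _ _ hy)
        omega
    · rw [sum_choose_zero m r h]
      exact zero_mem _
  -- the term `b = 1`
  have hone : ∑ j ∈ range m, (sc m j * e j) • lin (μ j) (theta v n x) -
      (if m = m' then c • theta v n x else 0) ∈ G (d + m + 1 - m' * (n + 1)) := by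
    obtain ⟨a, ha, hc⟩ := he
    have hy : theta v n x ∈ G (d - m' * n) := hth _ _ x hx
    have e1 : m' * (n + 1) = m' * n + m' := by ring
    rw [sum_bp m (m' - 1) e a ha]
    have hlow : ∀ r ∈ Icc 1 (m' - 1), r ≠ m - 1 →
        ∑ j ∈ range m, (sc m j * (j.choose r : ℤ)) • lin (μ j) (theta v n x) ∈
          G (d + m + 1 - m' * (n + 1)) := by
      intro r hr hrm
      obtain ⟨hr1, hr2⟩ := Finset.mem_Icc.1 hr
      rcases Nat.lt_or_ge r m with h | h
      · refine hanti ?_ (sum_choose_mem hd m r (by omega) _ _ hy)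
        omega
      · rw [sum_choose_zero m r h]
        exact zero_mem _
    by_cases hmm : m = m'
    · subst hmm
      rw [if_pos rfl, ← Finset.add_sum_erase (Icc 1 (m - 1)) _
        (show m - 1 ∈ Icc 1 (m - 1) by rw [Finset.mem_Icc]; omega), hc,
        sum_choose_top m (by omega), add_sub_right_comm, ← smul_sub]
      refine add_mem (AddSubgroup.zsmul_mem _ (hanti ?_ (hl _ _ _ hy)) _)
        (AddSubgroup.sum_mem _ fun r hr => AddSubgroup.zsmul_mem _ ?_ _)
      · omega
      · obtain ⟨h1, h2⟩ := Finset.mem_erase.1 hr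
        exact hlow r h2 h1
    · rw [if_neg hmm, sub_zero]
      refine AddSubgroup.sum_mem _ fun r hr => AddSubgroup.zsmul_mem _ ?_ _
      by_cases hrm : r = m - 1
      · obtain ⟨hr1, hr2⟩ := Finset.mem_Icc.1 hr
        rw [hrm, sum_choose_top m (by omega)]
        refine hanti ?_ (lin_mem hanti hl _ _ _ hy)
        omega
      · exact hlow r hr hrm
  -- the expansion
  have hexp : theta v (n + 1) (II μ m x) = ∑ p ∈ antidiagonal (n + 1),
      ∑ j ∈ range m, (sc m j * Ring.choose (e j) p.2) • lin (μ j) (theta v p.1 x) := by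
    rw [II_apply, map_sum, Finset.sum_comm]
    refine Finset.sum_congr rfl fun j _ => ?_
    rw [map_zsmul, Pool.Agent.ZOL.H34.theta_lin v (μ j) (e j) (hv j), Finset.smul_sum]
    refine Finset.sum_congr rfl fun p _ => ?_
    rw [smul_smul]
  rw [Finset.Nat.sum_antidiagonal_succ', Finset.Nat.sum_antidiagonal_eq_sum_range_succ_mk,
    Finset.sum_range_succ] at hexp
  simp only [Ring.choose_zero_right, mul_one, Nat.sub_self, zero_add, Ring.choose_one_right]
    at hexp
  rw [hexp, II_apply]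
  have hrest : ∑ k ∈ range n, ∑ j ∈ range m,
      (sc m j * Ring.choose (e j) (n - k + 1)) • lin (μ j) (theta v k x) ∈
        G (d + m + 1 - m' * (n + 1)) := by
    refine AddSubgroup.sum_mem _ fun k hk => ?_
    have hk : k < n := by simpa using hk
    have h := hterm (n - k + 1) (by omega) (by omega)
    have e3 : n + 1 - (n - k + 1) = k := by omega
    rwa [e3] at h
  have h := add_mem hone hrest
  refine (congrArg (· ∈ G (d + m + 1 - m' * (n + 1))) ?_).mp h
  abel

end Pool.Agent.VTP.H70
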